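import Pool.Agent.U115.WM.Stm

/-!
Project WM, package CMQ.
-/

set_option autoImplicit false

namespace Pool.Agent.U643.WM

open Pool.Agent.U115.WM

theorem vol_eq {k : ℕ} (e : Fin k → ℕ) : vol e = 2 ^ (∑ i, e i) := by
  unfold vol
  rw [Finset.prod_pow_eq_pow_sum]

theorem gap_eq {k : ℕ} {e : Fin k → ℕ} (he : Monotone e) :
    gap e = 2 ^ (∑ p : Fin k × Fin k, (e p.2 - e p.1)) := by
  unfold gap
  rw [Finset.prod_pow_eq_pow_sum]
  congr 1
  refine Finset.sum_subset (Finset.filter_subset _ _) fun p _ hp => ?_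
  have h1 : p.2 ≤ p.1 := by
    by_contra h
    exact hp (Finset.mem_filter.2 ⟨Finset.mem_univ _, not_le.1 h⟩)
  exact Nat.sub_eq_zero_of_le (he h1)

theorem sum_rev {k : ℕ} (e : Fin k → ℕ) :
    ∑ p : Fin k × Fin k, (e p.1.rev - e p.2) = ∑ p : Fin k × Fin k, (e p.2 - e p.1) := by
  refine Fintype.sum_equiv ((Equiv.prodCongr Fin.revPerm (Equiv.refl _)).trans
    (Equiv.prodComm _ _)) _ _ fun p => ?_
  rfl

theorem sq_prod {k : ℕ} (e : Fin k → ℕ) (M : ℝ) (D : Finset (Fin k × Fin k))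
    (hD : ∀ p, p ∈ D ↔ p.1 ≤ p.2) :
    (∏ p ∈ D, (M * 2 ^ (e p.1 + e p.2))) ^ 2 = (M ^ k * vol e ^ 2) ^ (k + 1) := by
  classical
  obtain ⟨D', hD'⟩ : ∃ D' : Finset (Fin k × Fin k), D' = Finset.univ.filter (fun p => p.2 ≤ p.1) :=
    ⟨_, rfl⟩
  have h1 : ∏ p ∈ D, (M * 2 ^ (e p.1 + e p.2)) = ∏ p ∈ D', (M * 2 ^ (e p.1 + e p.2)) := by
    refine Finset.prod_equiv (Equiv.prodComm _ _) (fun p => ?_) fun p _ => ?_
    · rw [hD, hD', Finset.mem_filter]
      simp
    · simp [add_comm]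
  have h2 : D ∪ D' = Finset.univ := by
    ext p
    rw [Finset.mem_union, hD, hD', Finset.mem_filter]
    simp [le_total]
  have h3 : D ∩ D' = (Finset.univ : Finset (Fin k)).diag := by
    ext p
    rw [Finset.mem_inter, hD, hD', Finset.mem_filter, Finset.mem_diag]
    simp [le_antisymm_iff]
  have h4 := Finset.prod_union_inter (s₁ := D) (s₂ := D')
    (f := fun p : Fin k × Fin k => M * 2 ^ (e p.1 + e p.2))
  rw [h2, h3, Finset.prod_diag] at h4
  rw [sq]
  nth_rewrite 2 [h1]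
  rw [← h4, Finset.prod_mul_distrib, Finset.prod_mul_distrib, Finset.prod_const, Finset.prod_const,
    Finset.prod_pow_eq_pow_sum, Finset.prod_pow_eq_pow_sum, vol_eq]
  have h5 : ∑ p : Fin k × Fin k, (e p.1 + e p.2) = 2 * k * ∑ i, e i := by
    rw [Fintype.sum_prod_type]
    simp only [Finset.sum_add_distrib, Finset.sum_const, Finset.card_univ, Fintype.card_fin,
      smul_eq_mul]
    rw [← Finset.mul_sum]
    ring
  have h6 : ∑ i : Fin k, (e i + e i) = 2 * ∑ i, e i := by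
    rw [Finset.sum_add_distrib]
    ring
  rw [h5, h6]
  simp only [Finset.card_univ, Fintype.card_fin, Fintype.card_prod]
  generalize ∑ i, e i = S
  rw [mul_pow, ← pow_mul, ← pow_mul, ← pow_mul]
  have e1 : k * (k + 1) = k * k + k := by ring
  have e2 : S * (2 * (k + 1)) = 2 * k * S + 2 * S := by ring
  rw [e1, e2, pow_add, pow_add]
  ring

/-- Package CMQ. -/
theorem t_CMQ : S_CMQ := by
  intro k e M he hM h
  have hv : 0 < vol e := by rw [vol_eq]; positivity
  constructor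
  · obtain ⟨D, hDd⟩ : ∃ D : Finset (Fin k × Fin k), D = Finset.univ.filter (fun p => p.1 ≤ p.2) :=
      ⟨_, rfl⟩
    have hD : ∀ p, p ∈ D ↔ p.1 ≤ p.2 := by
      intro p
      rw [hDd]
      simp
    rw [← Finset.prod_subtype D hD (fun p => max 1 (M * 2 ^ (e p.1 + e p.2)))]
    have h1 : ∀ p ∈ D, max 1 (M * (2 : ℝ) ^ (e p.1 + e p.2)) ≤
        (M * 2 ^ (e p.1 + e p.2)) * 2 ^ (e p.1.rev - e p.2) := by
      intro p _
      refine max_le ?_ ?_
      · refine (h p.1).trans ?_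
        rw [mul_assoc, ← pow_add]
        refine mul_le_mul_of_nonneg_left ?_ hM.le
        exact pow_le_pow_right₀ (by norm_num) (by omega)
      · have h2 : (1 : ℝ) ≤ 2 ^ (e p.1.rev - e p.2) := one_le_pow₀ (by norm_num)
        have h3 : 0 < M * (2 : ℝ) ^ (e p.1 + e p.2) := by positivity
        nlinarith
    have h2 : ∏ p ∈ D, max 1 (M * (2 : ℝ) ^ (e p.1 + e p.2)) ≤
        (∏ p ∈ D, (M * 2 ^ (e p.1 + e p.2))) * ∏ p ∈ D, 2 ^ (e p.1.rev - e p.2) := by
      rw [← Finset.prod_mul_distrib]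
      exact Finset.prod_le_prod (fun p _ => by positivity) h1
    have h3 : ∏ p ∈ D, (2 : ℝ) ^ (e p.1.rev - e p.2) ≤ gap e := by
      rw [Finset.prod_pow_eq_pow_sum, gap_eq he, ← sum_rev]
      exact pow_le_pow_right₀ (by norm_num) (Finset.sum_le_sum_of_subset (Finset.subset_univ _))
    have h4 : ∏ p ∈ D, (M * (2 : ℝ) ^ (e p.1 + e p.2)) =
        (M ^ (k : ℝ) * vol e ^ (2 : ℝ)) ^ (((k : ℝ) + 1) / 2) := by
      have hp : 0 ≤ ∏ p ∈ D, (M * (2 : ℝ) ^ (e p.1 + e p.2)) :=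
        Finset.prod_nonneg fun p _ => by positivity
      rw [← Real.sqrt_sq hp, sq_prod e M D hD, Real.rpow_natCast, Real.rpow_ofNat,
        Real.sqrt_eq_rpow, ← Real.rpow_natCast (M ^ k * vol e ^ 2), ← Real.rpow_mul (by positivity)]
      congr 1
      push_cast
      ring
    rw [← h4]
    refine h2.trans (mul_le_mul_of_nonneg_left h3 ?_)
    exact Finset.prod_nonneg fun p _ => by positivity
  · have h1 : 1 ≤ ∏ i, (M * (2 : ℝ) ^ (e i + e i.rev)) := by
      have := Finset.prod_le_prod (s := Finset.univ) (f := fun _ : Fin k => (1 : ℝ))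
        (g := fun i => M * (2 : ℝ) ^ (e i + e i.rev)) (fun i _ => zero_le_one) (fun i _ => h i)
      simpa using this
    have h2 : ∏ i, (M * (2 : ℝ) ^ (e i + e i.rev)) = M ^ k * vol e ^ 2 := by
      rw [Finset.prod_mul_distrib, Finset.prod_const, Finset.prod_pow_eq_pow_sum,
        Finset.sum_add_distrib, vol_eq, Finset.card_univ, Fintype.card_fin]
      have h3 : ∑ i : Fin k, e i.rev = ∑ i, e i := Equiv.sum_comp Fin.revPerm e
      rw [h3, ← pow_mul]
      congr 2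
      ring
    rw [h2] at h1
    rw [Real.rpow_natCast, Real.rpow_neg hv.le, Real.rpow_ofNat, inv_eq_one_div,
      div_le_iff₀ (by positivity)]
    exact h1

end Pool.Agent.U643.WM
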